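import Pool.Agent.N516.SC.Stm

/-!
# Project SC (helper516), leaf CUB: `glue D` is cubic (by helper565)
-/

set_option autoImplicit false

namespace Pool.Agent.N565.SC

open Pool.Agent.N516.SC

namespace Cub

theorem three {V : Type} {s : Set V} (a b c : V) (hab : a ≠ b) (hac : a ≠ c) (hbc : b ≠ c)
    (hs : ∀ w, w ∈ s ↔ w = a ∨ w = b ∨ w = c) : s.ncard = 3 := by
  rw [Set.ncard_eq_three]
  refine ⟨a, b, c, hab, hac, hbc, ?_⟩
  ext w
  rw [hs]
  simp

variable (D : Fin 3 → N516.SC.Pointed)

/-- the label of `v` as a neighbour of `x` -/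
def tx (i : Fin 3) (v : (D i).V) : Fin 2 := if v = (D i).p 0 then 0 else 1
/-- the label of `v` as a neighbour of `y` -/
def ty (i : Fin 3) (v : (D i).V) : Fin 2 := if v = (D i).q 0 then 0 else 1

/-- the neighbours of `v` in `D i` and in `glue D` -/
def nb (i : Fin 3) (v w : (D i).V) : W D :=
  if hx : w = (D i).x then ar D (i - 1) (tx D i v)
  else if hy : w = (D i).y then ar D (i + 1) (ty D i v)
  else .inl ⟨i, ⟨w, hx, hy⟩⟩

theorem xy (i : Fin 3) : (D i).y ≠ (D i).x := by
  intro h
  have h1 : (D i).G.Adj (D i).x (D i).y := ((D i).adj_x _).2 (Or.inl rfl)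
  exact h1.ne h.symm

theorem nb_x (i : Fin 3) (v : (D i).V) : nb D i v (D i).x = ar D (i - 1) (tx D i v) := by
  simp [nb]

theorem nb_y (i : Fin 3) (v : (D i).V) : nb D i v (D i).y = ar D (i + 1) (ty D i v) := by
  simp [nb, xy D i]

theorem nb_in (i : Fin 3) (v : (D i).V) (w : Inner (D i)) : nb D i v w.1 = .inl ⟨i, w⟩ := by
  simp [nb, w.2.1, w.2.2]

theorem ne3 (i : Fin 3) : i - 1 ≠ i + 1 := by
  revert i; decide

theorem nb_inj (i : Fin 3) (v : (D i).V) : Function.Injective (nb D i v) := by
  intro a b h
  have h0 := ne3 i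
  have h0' := (ne3 i).symm
  by_cases hax : a = (D i).x
  · subst hax
    by_cases hbx : b = (D i).x
    · exact hbx.symm
    · by_cases hby : b = (D i).y
      · subst hby
        rw [nb_x, nb_y] at h
        simp only [Sum.inr.injEq, Option.some.injEq, Prod.mk.injEq] at h
        exact absurd h.1 h0
      · have := nb_in D i v ⟨b, hbx, hby⟩
        rw [nb_x] at h
        rw [← h] at this
        exact absurd this (by simp)
  · by_cases hay : a = (D i).y
    · subst hay
      by_cases hbx : b = (D i).x
      · subst hbx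
        rw [nb_x, nb_y] at h
        simp only [Sum.inr.injEq, Option.some.injEq, Prod.mk.injEq] at h
        exact absurd h.1 h0'
      · by_cases hby : b = (D i).y
        · exact hby.symm
        · have := nb_in D i v ⟨b, hbx, hby⟩
          rw [nb_y] at h
          rw [← h] at this
          exact absurd this (by simp)
    · have h1 := nb_in D i v ⟨a, hax, hay⟩
      by_cases hbx : b = (D i).x
      · subst hbx
        rw [nb_x] at h
        rw [h] at h1
        exact absurd h1 (by simp)
      · by_cases hby : b = (D i).y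
        · subst hby
          rw [nb_y] at h
          rw [h] at h1
          exact absurd h1 (by simp)
        · have h2 := nb_in D i v ⟨b, hbx, hby⟩
          rw [h] at h1
          simp only at h1 h2
          rw [h1] at h2
          simpa using h2

theorem tx_eq (i : Fin 3) (v : (D i).V) (t : Fin 2) (h : v = (D i).p t) : tx D i v = t := by
  subst h
  rcases t with ⟨t, ht⟩
  interval_cases t
  · simp [tx]
  · have := (D i).p_ne.symm
    exact if_neg this

theorem ty_eq (i : Fin 3) (v : (D i).V) (t : Fin 2) (h : v = (D i).q t) : ty D i v = t := by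
  subst h
  rcases t with ⟨t, ht⟩
  interval_cases t
  · simp [ty]
  · have := (D i).q_ne.symm
    exact if_neg this

theorem image (h : S_NB) (i : Fin 3) (v : Inner (D i)) :
    nb D i v.1 '' (D i).G.neighborSet v.1 = (glue D).neighborSet (.inl ⟨i, v⟩) := by
  obtain ⟨hhu, hce, har, hin, hout⟩ := h D
  ext b
  constructor
  · rintro ⟨w, hw, rfl⟩
    rw [SimpleGraph.mem_neighborSet] at hw ⊢
    by_cases hx : w = (D i).x
    · subst hx
      rw [nb_x]
      have h1 := ((D i).adj_x v.1).1 hw.symm
      have h2 : ∃ t, v.1 = (D i).p t := by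
        rcases h1 with h1 | h1 | h1
        · exact absurd h1 v.2.2
        · exact ⟨0, h1⟩
        · exact ⟨1, h1⟩
      obtain ⟨t, ht⟩ := h2
      rw [tx_eq D i v.1 t ht]
      refine SimpleGraph.Adj.symm ((har (i - 1) t _).2 (Or.inr (Or.inl ?_)))
      rw [sub_add_cancel, px]
      congr 2
      exact Subtype.ext ht
    · by_cases hy : w = (D i).y
      · subst hy
        rw [nb_y]
        have h1 := ((D i).adj_y v.1).1 hw.symm
        have h2 : ∃ t, v.1 = (D i).q t := by
          rcases h1 with h1 | h1 | h1
          · exact absurd h1 v.2.1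
          · exact ⟨0, h1⟩
          · exact ⟨1, h1⟩
        obtain ⟨t, ht⟩ := h2
        rw [ty_eq D i v.1 t ht]
        refine SimpleGraph.Adj.symm ((har (i + 1) t _).2 (Or.inr (Or.inr ?_)))
        rw [add_sub_cancel_right, qx]
        congr 2
        exact Subtype.ext ht
      · have h1 := nb_in D i v.1 ⟨w, hx, hy⟩
        simp only at h1
        rw [h1]
        exact (hin i v ⟨w, hx, hy⟩).2 hw
  · intro hb
    rw [SimpleGraph.mem_neighborSet] at hb
    rcases b with ⟨j, w⟩ | b
    · by_cases hij : i = j
      · subst hij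
        exact ⟨w.1, (hin i v w).1 hb, nb_in D i v.1 w⟩
      · exact absurd hb (hout i j v w hij)
    · rcases b with _ | ⟨j, _ | t⟩
      · have := (hhu _).1 hb.symm
        simp at this
      · have := (hce j _).1 hb.symm
        simp at this
      · rcases (har j t _).1 hb.symm with h1 | h1 | h1
        · simp at h1
        · rw [px] at h1
          obtain ⟨e1, e2⟩ := Sigma.mk.inj_iff.1 (Sum.inl_injective h1)
          subst e1
          have e3 := congrArg Subtype.val (eq_of_heq e2)
          refine ⟨(D (j + 1)).x, ?_, ?_⟩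
          · rw [SimpleGraph.mem_neighborSet, SimpleGraph.adj_comm, (D (j + 1)).adj_x, e3]
            fin_cases t <;> simp
          · rw [nb_x, tx_eq D _ v.1 t e3, add_sub_cancel_right]
        · rw [qx] at h1
          obtain ⟨e1, e2⟩ := Sigma.mk.inj_iff.1 (Sum.inl_injective h1)
          subst e1
          have e3 := congrArg Subtype.val (eq_of_heq e2)
          refine ⟨(D (j - 1)).y, ?_, ?_⟩
          · rw [SimpleGraph.mem_neighborSet, SimpleGraph.adj_comm, (D (j - 1)).adj_y, e3]
            fin_cases t <;> simp
          · rw [nb_y, ty_eq D _ v.1 t e3, sub_add_cancel]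

end Cub

/-- **CUB** -/
theorem t_CUB (h : S_NB) : S_CUB := by
  intro D hc _ v
  obtain ⟨hhu, hce, har, hin, hout⟩ := h D
  rcases v with ⟨i, v⟩ | v
  · rw [← Cub.image D h i v, Set.ncard_image_of_injective _ (Cub.nb_inj D i v.1)]
    exact hc i v.1
  · rcases v with _ | ⟨i, _ | t⟩
    · exact Cub.three (ce D 0) (ce D 1) (ce D 2) (by simp) (by simp) (by simp) (hhu ·)
    · exact Cub.three (hu D) (ar D i 0) (ar D i 1) (by simp) (by simp) (by simp) (hce i ·)
    · refine Cub.three (ce D i) (px D (i + 1) t) (qx D (i - 1) t) (by simp [px]) (by simp [qx]) ?_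
        (har i t ·)
      intro e
      rw [px, qx] at e
      exact Cub.ne3 i (congrArg Sigma.fst (Sum.inl_injective e)).symm

end Pool.Agent.N565.SC
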